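import Pool.Agent.Lib.MP_8d8c46_lc.Pebble

/-!
# Campaign CW: definitions read by a judge

Relational structures, the bijective pebble game on them, symmetric maps from structures to graphs, oracles for
`SSE(η, δ)`, symmetric oracle algorithms, 3-CNF formulas.
-/

set_option autoImplicit false

open scoped Classical

namespace Pool.Agent.Lib.MP_8d8c46_lc.CW

/-- A relational structure on `V`: relations indexed by `ι`, of any arities. -/
abbrev Struct (ι V : Type) : Type := ι → List V → Prop

/-- The position `p` of the `k`-pebble game (pebble `i` lies on the pair `p i`, or is off the board) is a partial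
isomorphism: equality and all relations between pebbled elements are preserved and reflected. -/
def IsPIso {ι V W : Type} (A : Struct ι V) (B : Struct ι W) {k : ℕ} (p : Fin k → Option (V × W)) : Prop :=
  (∀ i j a b, p i = some a → p j = some b → (a.1 = b.1 ↔ a.2 = b.2)) ∧
    ∀ (s : ι) (l : List (V × W)), (∀ a ∈ l, ∃ i, p i = some a) → (A s (l.map Prod.fst) ↔ B s (l.map Prod.snd))

/-- `Q` is a set of winning positions of Duplicator in the bijective `k`-pebble game: every position in `Q` is a partial
isomorphism and, whichever pebble `i` Spoiler picks up, there is a bijection `f` such that for every `v` the position with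
pebble `i` on `(v, f v)` is in `Q` again. -/
def Wins {ι V W : Type} (k : ℕ) (A : Struct ι V) (B : Struct ι W) (Q : Set (Fin k → Option (V × W))) : Prop :=
  ∀ p ∈ Q, IsPIso A B p ∧ ∀ i : Fin k, ∃ f : V ≃ W, ∀ v : V, Function.update p i (some (v, f v)) ∈ Q

/-- `(A, u)` and `(B, w)` are equivalent for `k` pebbles: some winning position of Duplicator covers all the pairs
`(u j, w j)`. -/
def Eqv (k : ℕ) {ι V W : Type} {m : ℕ} (A : Struct ι V) (u : Fin m → V) (B : Struct ι W) (w : Fin m → W) : Prop :=
  ∃ Q : Set (Fin k → Option (V × W)), Wins k A B Q ∧ ∃ p ∈ Q, ∀ j : Fin m, ∃ i, p i = some (u j, w j)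

/-- A symmetric map `F` of dimension `a` with labels `L` and `r` extra pebbles from the structures on `V` to graphs. The
vertices of `F A` are pairs (label, `a`-tuple of elements of `V`) in a domain `dom A`, modulo a congruence `eqv A`; the
domain, the congruence and the adjacency `adj A` depend only on the equivalence type of the tuples for `2 a + r`
pebbles. -/
structure SymMap (ι V L : Type) (a r : ℕ) where
  dom : Struct ι V → L × (Fin a → V) → Prop
  eqv : Struct ι V → L × (Fin a → V) → L × (Fin a → V) → Prop
  adj : Struct ι V → L × (Fin a → V) → L × (Fin a → V) → Prop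
  eqv_equiv : ∀ A : Struct ι V, Equivalence fun x y : {x : L × (Fin a → V) // dom A x} => eqv A x.1 y.1
  adj_symm : ∀ (A : Struct ι V) (x y : {x : L × (Fin a → V) // dom A x}), adj A x.1 y.1 → adj A y.1 x.1
  adj_irrefl : ∀ (A : Struct ι V) (x : {x : L × (Fin a → V) // dom A x}), ¬ adj A x.1 x.1
  adj_congr : ∀ (A : Struct ι V) (x x' y y' : {x : L × (Fin a → V) // dom A x}),
    eqv A x.1 x'.1 → eqv A y.1 y'.1 → adj A x.1 y.1 → adj A x'.1 y'.1
  dom_inv : ∀ (A B : Struct ι V) (l : L) (u w : Fin a → V),
    Eqv (2 * a + r) A u B w → (dom A (l, u) ↔ dom B (l, w))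
  eqv_inv : ∀ (A B : Struct ι V) (l l' : L) (u u' w w' : Fin a → V),
    Eqv (2 * a + r) A (Fin.append u u') B (Fin.append w w') → (eqv A (l, u) (l', u') ↔ eqv B (l, w) (l', w'))
  adj_inv : ∀ (A B : Struct ι V) (l l' : L) (u u' w w' : Fin a → V),
    Eqv (2 * a + r) A (Fin.append u u') B (Fin.append w w') → (adj A (l, u) (l', u') ↔ adj B (l, w) (l', w'))

namespace SymMap

variable {ι V L : Type} {a r : ℕ} (F : SymMap ι V L a r) (A : Struct ι V)

/-- The congruence on the domain. -/
def setoid : Setoid {x : L × (Fin a → V) // F.dom A x} :=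
  ⟨fun x y => F.eqv A x.1 y.1, F.eqv_equiv A⟩

/-- The vertices of the graph `F A`. -/
def Vtx : Type := Quotient (F.setoid A)

/-- The graph `F A`. -/
def graph : SimpleGraph (F.Vtx A) where
  Adj := fun x y => Quotient.lift₂ (s₁ := F.setoid A) (s₂ := F.setoid A) (fun x y => F.adj A x.1 y.1)
    (fun x y x' y' hx hy => propext ⟨F.adj_congr A x x' y y' hx hy,
      F.adj_congr A x' x y' y ((F.eqv_equiv A).symm hx) ((F.eqv_equiv A).symm hy)⟩) x y
  symm := ⟨fun x y => by
    induction x using Quotient.inductionOn
    induction y using Quotient.inductionOn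
    exact fun h => F.adj_symm A _ _ h⟩
  loopless := ⟨fun x => by
    induction x using Quotient.inductionOn
    exact fun h => F.adj_irrefl A _ h⟩

noncomputable instance [Fintype L] [Fintype V] : Fintype (F.Vtx A) :=
  Quotient.fintype (F.setoid A)

end SymMap

/-- An oracle answers every finite graph with yes or no. -/
abbrev Oracle : Type 1 := ∀ (W : Type) [Fintype W], SimpleGraph W → Prop

/-- The oracle `O` solves `SSE(η, δ)`: it answers yes on all Yes instances and no on all No instances. -/
def Solves (η δ : ℚ) (O : Oracle) : Prop :=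
  ∀ (W : Type) [Fintype W] (G : SimpleGraph W), (SSEYes η δ G → O W G) ∧ (SSENo η δ G → ¬ O W G)

/-- A deterministic symmetric algorithm with an oracle for graphs, on the structures on `V`, of dimension `a` with `r`
extra pebbles. At a `query` node it asks the oracle about the graph `F A`, where `A` is the input and `F` a symmetric map
with `m` labels, and continues at one of two sons; at a `leaf` it answers with a property `D` of the input which depends
only on the equivalence type of the input for `2 a + r` pebbles. -/
inductive SymAlg (ι V : Type) (a r : ℕ) : Type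
  | leaf (D : Struct ι V → Prop) (hD : ∀ A B : Struct ι V, Eqv (2 * a + r) A ![] B ![] → (D A ↔ D B)) :
      SymAlg ι V a r
  | query (m : ℕ) (F : SymMap ι V (Fin m) a r) (yes no : SymAlg ι V a r) : SymAlg ι V a r

namespace SymAlg

variable {ι V : Type} [Fintype V] {a r : ℕ}

/-- With the oracle `O` the algorithm accepts the input `A`. -/
def Accepts (O : Oracle) (A : Struct ι V) : SymAlg ι V a r → Prop
  | leaf D _ => D A
  | query _ F yes no => (O _ (F.graph A) ∧ Accepts O A yes) ∨ (¬ O _ (F.graph A) ∧ Accepts O A no)

/-- With the oracle `O` and the input `A` the algorithm asks about some graph with at least `x` vertices. -/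
def AsksLarge (O : Oracle) (A : Struct ι V) (x : ℝ) : SymAlg ι V a r → Prop
  | leaf _ _ => False
  | query _ F yes no => x ≤ Fintype.card (F.Vtx A) ∨
      (O _ (F.graph A) ∧ AsksLarge O A x yes) ∨ (¬ O _ (F.graph A) ∧ AsksLarge O A x no)

end SymAlg

/-- A 3-CNF formula with variables in `V`: a set of clauses. A clause is a set of three literals with different
variables; a literal is a variable with the truth value that satisfies it. -/
abbrev Formula (V : Type) : Type :=
  Set {c : Finset (V × Bool) // c.card = 3 ∧ Set.InjOn Prod.fst (c : Set (V × Bool))}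

/-- Satisfiable formulas. -/
def Satisfiable {V : Type} (φ : Formula V) : Prop := ∃ g : V → Bool, ∀ c ∈ φ, ∃ l ∈ c.1, g l.1 = l.2

/-- Every assignment satisfies less than the fraction `θ` of the clauses. -/
def ValueLt {V : Type} (θ : ℝ) (φ : Formula V) : Prop :=
  ∀ g : V → Bool, ({c ∈ φ | ∃ l ∈ c.1, g l.1 = l.2}.ncard : ℝ) < θ * φ.ncard

/-- A formula as a structure on its set of variables: for each pattern `σ` of signs the ternary relation of all
`(y 0, y 1, y 2)` such that `{(y 0, σ 0), (y 1, σ 1), (y 2, σ 2)}` is a clause. -/
def toStruct {V : Type} (φ : Formula V) : Struct (Fin 3 → Bool) V :=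
  fun σ l => ∃ c ∈ φ, ∃ y : Fin 3 → V, c.1 = Finset.univ.image (fun i => (y i, σ i)) ∧ l = [y 0, y 1, y 2]

end Pool.Agent.Lib.MP_8d8c46_lc.CW
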