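import Pool.Agent.Lib.MP_8d8c46_lc.CW.SysDefs

/-!
# Campaign CW: the data of the energy increment (definitions)
-/

set_option autoImplicit false

open scoped Classical
open Finset

namespace Pool.Agent.Lib.MP_8d8c46_lc.CW

/-- A stable system for a Yes instance `G false` with the set `A` and a No instance `G true`; `N = δ n`. -/
structure Setup (r : ℕ) (X : Bool → Type) [∀ i, Fintype (X i)] (G : ∀ i, SimpleGraph (X i)) where
  S : Sys r X G
  d : ℕ
  N : ℕ
  η : ℝ
  A : Finset (X false)
  hd : 1 ≤ d
  reg : ∀ i, Regular (G i) d
  hN : 1 ≤ N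
  hcard : Fintype.card (X false) = Fintype.card (X true)
  hNn : N ≤ Fintype.card (X false)
  hη0 : 0 < η
  hη1 : η ≤ 1 / 200
  no : ∀ T : Finset (X true), T.card = N → (inside (G true) T : ℝ) ≤ η * (d * N)
  hA : A.card = N
  yes : (1 - η) * (d * N) ≤ (inside (G false) A : ℝ)
  big : 4 ≤ η ^ 2 * N

namespace Setup

variable {r : ℕ} {X : Bool → Type} [∀ i, Fintype (X i)] {G : ∀ i, SimpleGraph (X i)} (D : Setup r X G)

/-- the complement of the exceptional set -/
def U : Set (X false) := {x | x ∉ WW D.S D.d D.N false}

/-- the indicator function of `A ∩ U` -/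
noncomputable def h : X false → ℝ := fun x => if x ∈ D.A ∧ x ∈ D.U then 1 else 0

/-- the normalised adjacency operator of `G false` -/
noncomputable def M (f : X false → ℝ) : X false → ℝ := Mo (G false) D.d f

/-- the killed walk on `G false` -/
noncomputable def P (f : X false → ℝ) : X false → ℝ := Po (G false) D.d D.U f

/-- the projection of `h` to the `t`-measurable functions -/
noncomputable def f (t : Fin r → X false) : X false → ℝ := avg (D.S.c false t) D.h

/-- `h` minus its projection -/
noncomputable def g (t : Fin r → X false) : X false → ℝ := fun x => D.h x - D.f t x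

end Setup

end Pool.Agent.Lib.MP_8d8c46_lc.CW
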