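import Pool.Agent.Lib.MP_8d8c46_lc.Mg.G015

/-!
# Campaign CW, task F1: the formula of the homogeneous system is satisfiable; the shift
-/

set_option autoImplicit false

open scoped Classical
open Finset

namespace Pool.Agent.Lib.MP_8d8c46_lc.CW

section
variable {I E V : Type} (emb : I × ZMod 2 ↪ V) (x : E → Fin 3 → I)

private theorem F1_two (a : ZMod 2) : a = 0 ∨ a = 1 := by
  revert a
  decide

private theorem F1_bz (v : I) (α : ZMod 2) :
    bz (decide (∃ v' : I, emb (v, α) = emb (v', 1))) = α := by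
  rcases F1_two α with h | h
  · have h1 : ¬ ∃ v' : I, emb (v, α) = emb (v', 1) := by
      rintro ⟨v', hv⟩
      have h2 := emb.injective hv
      have h3 : α = 1 := congrArg Prod.snd h2
      rw [h] at h3
      exact absurd h3 (by decide)
    rw [decide_eq_false h1, h]
    rfl
  · have h1 : ∃ v' : I, emb (v, α) = emb (v', 1) := ⟨v, by rw [h]⟩
    rw [decide_eq_true h1, h]
    rfl

theorem mem_ecl {e : E} {α : Fin 3 → ZMod 2} {σ : Fin 3 → Bool} (i : Fin 3) :
    (emb (x e i, α i), σ i) ∈ ecl emb x e α σ :=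
  mem_image.2 ⟨i, mem_univ _, rfl⟩

/-- PROOF: `G y = true` iff `y = emb (v, 1)` for some `v`; so `bz (G (emb (v, α))) = α`. A clause `ecl emb x e α σ` not satisfied by `G`: `σ i = !(G (emb (x e i, α i)))` for all `i`, so `∑ bz (!(σ i)) = ∑ α i`: contradiction. -/
theorem phi_sat : Satisfiable (phi emb x fun _ => 0) := by
  refine ⟨fun y => decide (∃ v' : I, y = emb (v', 1)), ?_⟩
  rintro c ⟨e, α, σ, hne, hc⟩
  by_contra hcon
  push Not at hcon
  apply hne
  rw [zero_add]
  refine Finset.sum_congr rfl fun i _ => ?_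
  have h1 := hcon (emb (x e i, α i), σ i) (by rw [hc]; exact mem_ecl emb x i)
  have h2 := F1_bz emb (x e i) (α i)
  change decide (∃ v' : I, emb (x e i, α i) = emb (v', 1)) ≠ σ i at h1
  have h3 : (!(σ i)) = decide (∃ v' : I, emb (x e i, α i) = emb (v', 1)) := by
    cases hσ : σ i <;> cases hd : decide (∃ v' : I, emb (x e i, α i) = emb (v', 1)) <;> simp_all
  rw [h3]
  exact h2

theorem sh_emb (g : I → ZMod 2) (v : I) (α : ZMod 2) : sh emb g (emb (v, α)) = emb (v, α + g v) := by
  have h : ∃ q, emb q = emb (v, α) := ⟨(v, α), rfl⟩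
  have h2 : h.choose = (v, α) := emb.injective h.choose_spec
  unfold sh
  rw [dif_pos h, h2]

theorem sh_not {g : I → ZMod 2} {y : V} (h : ∀ q, emb q ≠ y) : sh emb g y = y := by
  unfold sh
  rw [dif_neg]
  rintro ⟨q, hq⟩
  exact h q hq

/-- PROOF: `sh_emb`, `α + g v + g v = α`; `sh_not`. -/
theorem sh_sh (g : I → ZMod 2) (y : V) : sh emb g (sh emb g y) = y := by
  by_cases h : ∃ q, emb q = y
  · obtain ⟨⟨v, α⟩, rfl⟩ := h
    rw [sh_emb, sh_emb, add_assoc, CharTwo.add_self_eq_zero, add_zero]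
  · have h' : ∀ q, emb q ≠ y := fun q hq => h ⟨q, hq⟩
    rw [sh_not emb h', sh_not emb h']

theorem sh_inj (g : I → ZMod 2) : Function.Injective (sh emb g) := by
  intro y y' h
  rw [← sh_sh emb g y, h, sh_sh]

/-- If `g` and `g'` agree on the variable of `y` then the shifts of `y` agree. -/
theorem sh_congr {g g' : I → ZMod 2} {y : V} (h : ∀ v α, emb (v, α) = y → g v = g' v) :
    sh emb g y = sh emb g' y := by
  by_cases h1 : ∃ q, emb q = y
  · obtain ⟨⟨v, α⟩, rfl⟩ := h1
    rw [sh_emb, sh_emb, h v α rfl]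
  · have h' : ∀ q, emb q ≠ y := fun q hq => h1 ⟨q, hq⟩
    rw [sh_not emb h', sh_not emb h']

/-- The shift of a clause `c` is a clause. -/
theorem sh_clause (g : I → ZMod 2) (c : {c : Finset (V × Bool) // c.card = 3 ∧ Set.InjOn Prod.fst (c : Set (V × Bool))}) :
    (c.1.image fun l => (sh emb g l.1, l.2)).card = 3 ∧
      Set.InjOn Prod.fst ((c.1.image fun l => (sh emb g l.1, l.2) : Finset (V × Bool)) : Set (V × Bool)) := by
  constructor
  · rw [card_image_of_injective, c.2.1]
    intro l l' h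
    rw [Prod.mk.injEq] at h
    exact Prod.ext (sh_inj emb g h.1) h.2
  · rw [coe_image]
    rintro _ ⟨l, hl, rfl⟩ _ ⟨l', hl', rfl⟩ h
    have h1 : l.1 = l'.1 := sh_inj emb g h
    rw [c.2.2 hl hl' h1]

/-- The shift of a clause. PROOF: `ecl emb x e α σ` is mapped to `ecl emb x e (fun i => α i + g (x e i)) σ`, and `∑ (α i + g (x e i)) = ∑ α i + (b e + b' e)`, `b' e + (b e + b' e) = b e`. -/
theorem phi_shift {b b' : E → ZMod 2} {g : I → ZMod 2}
    {c : {c : Finset (V × Bool) // c.card = 3 ∧ Set.InjOn Prod.fst (c : Set (V × Bool))}}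
    (hg : ∀ e α σ, c.1 = ecl emb x e α σ → g (x e 0) + g (x e 1) + g (x e 2) = b e + b' e)
    (hc : c ∈ phi emb x b) :
    (⟨c.1.image fun l => (sh emb g l.1, l.2), sh_clause emb g c⟩ :
      {c : Finset (V × Bool) // c.card = 3 ∧ Set.InjOn Prod.fst (c : Set (V × Bool))}) ∈ phi emb x b' := by
  obtain ⟨e, α, σ, hne, hce⟩ := hc
  refine ⟨e, fun i => α i + g (x e i), σ, ?_, ?_⟩
  · intro h
    apply hne
    rw [h, Finset.sum_add_distrib]
    have h1 : ∑ i, g (x e i) = b e + b' e := by
      rw [Fin.sum_univ_three]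
      exact hg e α σ hce
    rw [h1]
    have h2 : b' e + b' e = 0 := CharTwo.add_self_eq_zero _
    calc b' e + (∑ i, α i + (b e + b' e)) = b e + ∑ i, α i + (b' e + b' e) := by ring
      _ = b e + ∑ i, α i := by rw [h2, add_zero]
  · show (c.1.image fun l => (sh emb g l.1, l.2)) = _
    rw [hce]
    unfold ecl
    rw [image_image]
    refine image_congr fun i _ => ?_
    show (sh emb g (emb (x e i, α i)), σ i) = (emb (x e i, α i + g (x e i)), σ i)
    rw [sh_emb]

end

end Pool.Agent.Lib.MP_8d8c46_lc.CW
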