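import Pool.Agent.Lib.MP_8d8c46_lc.CW.F1

/-!
# Campaign CW, task F2: Duplicator wins on the two formulas
-/

set_option autoImplicit false

open scoped Classical
open Finset

namespace Pool.Agent.Lib.MP_8d8c46_lc.CW

private lemma F2_fwd {I E V : Type} (emb : I × ZMod 2 ↪ V) {x : E → Fin 3 → I} {b b' : E → ZMod 2} {U : Finset I}
    {g : I → ZMod 2} (hg : ∀ e, (∀ i, x e i ∈ U) → g (x e 0) + g (x e 1) + g (x e 2) = b e + b' e)
    {L : List V} (hL : ∀ y ∈ L, ∀ v α, emb (v, α) = y → v ∈ U) {σ : Fin 3 → Bool}
    (h : toStruct (phi emb x b) σ L) : toStruct (phi emb x b') σ (L.map (sh emb g)) := by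
  obtain ⟨c, hc, y, hσ, rfl⟩ := h
  refine ⟨⟨c.1.image fun l => (sh emb g l.1, l.2), sh_clause emb g c⟩, phi_shift emb x ?_ hc,
    fun i => sh emb g (y i), ?_, rfl⟩
  · intro e α τ hce
    apply hg
    intro i
    have h1 : (emb (x e i, α i), τ i) ∈ c.1 := by
      rw [hce]
      exact mem_ecl emb x i
    rw [hσ, mem_image] at h1
    obtain ⟨j, -, hj⟩ := h1
    have h2 : y j = emb (x e i, α i) := congrArg Prod.fst hj
    have hmem : y j ∈ [y 0, y 1, y 2] := by fin_cases j <;> simp
    exact hL _ hmem (x e i) (α i) h2.symm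
  · show (c.1.image fun l => (sh emb g l.1, l.2)) = _
    rw [hσ, image_image]
    rfl

/-- the variable of a pebbled pair -/
private noncomputable def F2_var {I V : Type} (emb : I × ZMod 2 ↪ V) (q : Option (V × V)) : Finset I :=
  match q with
  | none => ∅
  | some y => if h : ∃ q, emb q = y.1 then {h.choose.1} else ∅

private lemma F2_card {I V : Type} (emb : I × ZMod 2 ↪ V) (q : Option (V × V)) : (F2_var emb q).card ≤ 1 := by
  cases q with
  | none => simp [F2_var]
  | some y =>
    unfold F2_var
    simp only
    split_ifs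
    · simp
    · simp

private lemma F2_mem {I V : Type} (emb : I × ZMod 2 ↪ V) {y : V × V} {v : I} {α : ZMod 2} (h : emb (v, α) = y.1) :
    v ∈ F2_var emb (some y) := by
  have h' : ∃ q, emb q = y.1 := ⟨_, h⟩
  have h1 : F2_var emb (some y) = {h'.choose.1} := by
    unfold F2_var
    simp only
    rw [dif_pos h']
  have h2 : h'.choose = (v, α) := emb.injective (h'.choose_spec.trans h.symm)
  rw [h1, h2]
  exact mem_singleton_self _

private lemma F2_sub {I V : Type} (emb : I × ZMod 2 ↪ V) {y : V × V} {v : I} (h : v ∈ F2_var emb (some y)) :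
    ∃ α, emb (v, α) = y.1 := by
  unfold F2_var at h
  simp only at h
  split_ifs at h with h'
  · rw [mem_singleton] at h
    subst h
    exact ⟨h'.choose.2, h'.choose_spec⟩
  · exact absurd h (notMem_empty _)

/-- PROOF (as in the library theorem `xor_pebble` in XorSys.lean). `c e = b e + b' e`. `Q = {p | ∃ (U : Finset I) (g : I → ZMod 2), Good x c s U g ∧ ∀ i y, p i = some y → (∀ v α, emb (v, α) = y.1 → v ∈ U) ∧ y.2 = sh emb g y.1}`. The empty position: `good_empty`.
IsPIso: equality: `sh emb g` is injective (`sh_sh`). Relations: `toStruct (phi emb x b) σ (l.map Prod.fst)` means: there is `c₁ ∈ phi emb x b` with signs `σ` and `l.map Prod.fst = [(c₁ 0).1, (c₁ 1).1, (c₁ 2).1]`. All entries of `l` are pebbled, so `l.map Prod.snd` is the list of the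
`sh emb g (c₁ i).1`; the clause `fun i => (sh emb g (c₁ i).1, σ i)` is in `phi emb x b'` by `phi_shift`: if `c₁ = ecl emb x e α σ` then all `x e i ∈ U` and `Good` for `{e}` (`1 ≤ s`) gives `g (x e 0) + g (x e 1) + g (x e 2) = b e + b' e`. The converse in the same way with `b, b'` exchanged (`sh_sh`).
Move of pebble `i`: `U' ⊆ U` = the variables `v` with `emb (v, α) = y.1` for some `y = p i'`, `i' ≠ i` (at most `k - 1` elements, `Good.mono`; e.g. the image of `univ.erase i` under the function that picks the variable). For every `v : I`, `Good.insert` (`2 * (k - 1) ≤ s`) gives an extension `g_v` with `Good x c s (insert v U') g_v`.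
The bijection is `f y = sh emb (g_v) y` if `y = emb (v, α)`, and `f y = y` if `y` is not in the range of `emb`: it is its own inverse, i.e. `f = sh emb (fun v => g_v v)` (an `Equiv` by `sh_sh`). The new position is in `Q` with `insert v U'`, `g_v` (`sh_congr`), resp. `U'`, `g`. -/
theorem phi_cov {I E V : Type} [Fintype I] [Fintype E] (emb : I × ZMod 2 ↪ V) {x : E → Fin 3 → I} {b b' : E → ZMod 2} {s k : ℕ}
    (hexp : Expands x s) (hk1 : 1 ≤ k) (hk : 2 * k ≤ s) :
    Cov k (toStruct (phi emb x b)) (toStruct (phi emb x b')) ∅ := by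
  set c : E → ZMod 2 := fun e => b e + b' e with hc
  have hinjsh : ∀ g : I → ZMod 2, Function.Injective (sh emb g) := sh_inj emb
  refine ⟨{p | ∃ (U : Finset I) (g : I → ZMod 2), Good x c s U g ∧
    ∀ i y, p i = some y → (∀ v α, emb (v, α) = y.1 → v ∈ U) ∧ y.2 = sh emb g y.1}, ?_,
    fun _ => none, ⟨∅, 0, good_empty hexp 0, fun i y h => absurd h (by simp)⟩, fun x hx => absurd hx (notMem_empty _)⟩
  rintro p ⟨U, g, hgood, hpos⟩
  refine ⟨⟨?_, ?_⟩, ?_⟩
  · intro i j y y' hi hj
    rw [(hpos i y hi).2, (hpos j y' hj).2]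
    exact ⟨fun h => by rw [h], fun h => hinjsh g h⟩
  · intro σ l hl
    have heq : ∀ e, (∀ i, x e i ∈ U) → g (x e 0) + g (x e 1) + g (x e 2) = b e + b' e := by
      intro e he
      obtain ⟨h, h1, h2⟩ := hgood {e} (by rw [card_singleton]; omega)
      have h3 := h2 e (mem_singleton_self e)
      rw [h1 _ (he 0), h1 _ (he 1), h1 _ (he 2)] at h3
      exact h3
    have hL : ∀ y ∈ l.map Prod.fst, ∀ v α, emb (v, α) = y → v ∈ U := by
      intro y hy v α hv
      obtain ⟨a, ha, rfl⟩ := List.mem_map.1 hy
      obtain ⟨i, hi⟩ := hl a ha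
      exact (hpos i a hi).1 v α hv
    have hmap : l.map Prod.snd = (l.map Prod.fst).map (sh emb g) := by
      rw [List.map_map]
      refine List.map_congr_left fun a ha => ?_
      obtain ⟨i, hi⟩ := hl a ha
      exact (hpos i a hi).2
    rw [hmap]
    refine ⟨fun h => F2_fwd emb heq hL h, fun h => ?_⟩
    have h1 := F2_fwd emb (b := b') (b' := b) (g := g) (U := U)
      (fun e he => by rw [heq e he, add_comm]) (L := (l.map Prod.fst).map (sh emb g)) ?_ h
    · rw [List.map_map] at h1
      have h2 : (sh emb g ∘ sh emb g) = id := by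
        funext y
        exact sh_sh emb g y
      rw [h2, List.map_id] at h1
      exact h1
    · intro y hy v α hv
      obtain ⟨z, hz, rfl⟩ := List.mem_map.1 hy
      refine hL z hz v (α + g v) ?_
      rw [← sh_emb, hv, sh_sh]
  · intro i
    set U' : Finset I := (univ.erase i).biUnion (fun j => F2_var emb (p j)) with hU'
    have hin : ∀ j y, j ≠ i → p j = some y → ∀ v α, emb (v, α) = y.1 → v ∈ U' := by
      intro j y hj hy v α hv
      rw [hU', mem_biUnion]
      exact ⟨j, mem_erase.2 ⟨hj, mem_univ j⟩, by rw [hy]; exact F2_mem emb hv⟩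
    have hsub : U' ⊆ U := by
      intro v hv
      rw [hU', mem_biUnion] at hv
      obtain ⟨j, _, hj⟩ := hv
      cases hpj : p j with
      | none => rw [hpj] at hj; exact absurd hj (notMem_empty v)
      | some y =>
        rw [hpj] at hj
        obtain ⟨α, hα⟩ := F2_sub emb hj
        exact (hpos j y hpj).1 v α hα
    have hcard : U'.card ≤ k - 1 := by
      have h1 : U'.card ≤ (univ.erase i).card * 1 :=
        card_biUnion_le_card_mul _ _ _ (fun j _ => F2_card emb (p j))
      rw [card_erase_of_mem (mem_univ i), card_univ, Fintype.card_fin, mul_one] at h1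
      exact h1
    have hgood' := hgood.mono hsub
    have hex : ∀ v : I, ∃ g', (∀ w ∈ U', g' w = g w) ∧ Good x c s (insert v U') g' :=
      fun v => hgood'.insert hexp (by omega) v
    choose g' hg1 hg2 using hex
    set G : I → ZMod 2 := fun v => g' v v with hG
    have hinv : Function.Involutive (sh emb G) := fun y => sh_sh emb G y
    refine ⟨hinv.toPerm, fun y => ?_⟩
    by_cases hy : ∃ q, emb q = y
    · obtain ⟨⟨v, α⟩, hv⟩ := hy
      have huniq : ∀ v' α', emb (v', α') = y → v' = v := by
        intro v' α' h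
        have := emb.injective (h.trans hv.symm)
        exact (Prod.mk.inj this).1
      refine ⟨insert v U', g' v, hg2 v, ?_⟩
      intro j a ha
      by_cases hj : j = i
      · subst hj
        rw [Function.update_self, Option.some.injEq] at ha
        subst ha
        refine ⟨fun v' α' h => ?_, ?_⟩
        · rw [huniq v' α' h]
          exact mem_insert_self _ _
        · show sh emb G y = sh emb (g' v) y
          refine sh_congr emb fun v' α' h => ?_
          rw [huniq v' α' h]
      · rw [Function.update_of_ne hj] at ha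
        refine ⟨fun v' α' h => mem_insert_of_mem (hin j a hj ha v' α' h), ?_⟩
        rw [(hpos j a ha).2]
        exact sh_congr emb fun v' α' h => (hg1 v v' (hin j a hj ha v' α' h)).symm
    · refine ⟨U', g, hgood', ?_⟩
      have hy' : ∀ q, emb q ≠ y := fun q h => hy ⟨q, h⟩
      intro j a ha
      by_cases hj : j = i
      · subst hj
        rw [Function.update_self, Option.some.injEq] at ha
        subst ha
        refine ⟨fun v' α' h => absurd h (hy' _), ?_⟩
        show sh emb G y = sh emb g y
        rw [sh_not emb hy', sh_not emb hy']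
      · rw [Function.update_of_ne hj] at ha
        exact ⟨hin j a hj ha, (hpos j a ha).2⟩

end Pool.Agent.Lib.MP_8d8c46_lc.CW
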