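import Pool.Agent.Lib.MP_8d8c46_lc.Pebble

/-!
# Campaign CW: operators on functions on the vertices (definitions)
-/

set_option autoImplicit false

open scoped Classical
open Finset

namespace Pool.Agent.Lib.MP_8d8c46_lc.CW

section
variable {V : Type} [Fintype V]

/-- scalar product -/
noncomputable def ip (f g : V → ℝ) : ℝ := ∑ x, f x * g x

/-- the normalised adjacency operator -/
noncomputable def Mo (G : SimpleGraph V) (d : ℕ) (f : V → ℝ) (x : V) : ℝ :=
  (∑ y, if G.Adj x y then f y else 0) / d

/-- the sum of `f x * f y` over the ordered adjacent pairs -/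
noncomputable def qf (G : SimpleGraph V) (f : V → ℝ) : ℝ :=
  ∑ x, ∑ y, if G.Adj x y then f x * f y else 0

/-- the lazy walk killed outside `U` -/
noncomputable def Po (G : SimpleGraph V) (d : ℕ) (U : Set V) (f : V → ℝ) (x : V) : ℝ :=
  if x ∈ U then (f x + Mo G d f x) / 2 else 0

/-- `f` vanishes outside `U` -/
def Supp (U : Set V) (f : V → ℝ) : Prop := ∀ x, x ∉ U → f x = 0

/-- number of neighbours of `x` in `R` -/
noncomputable def dg (G : SimpleGraph V) (R : Finset V) (x : V) : ℕ :=
  (univ.filter fun y => G.Adj x y ∧ y ∈ R).card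

/-- the superlevel set -/
noncomputable def lev (f : V → ℝ) (θ : ℝ) : Finset V := univ.filter fun x => θ < f x

/-- all superlevel sets (`θ ≥ 0`) have at most a quarter of their degrees inside -/
def LevExp (G : SimpleGraph V) (d : ℕ) (f : V → ℝ) : Prop :=
  ∀ θ : ℝ, 0 ≤ θ → 4 * inside G (lev f θ) ≤ d * (lev f θ).card

/-- the indicator function of a point -/
noncomputable def pt (v : V) : V → ℝ := fun x => if x = v then 1 else 0

/-- average of `h` over the points of the same colour -/
noncomputable def avg {T : Type} (col : V → T) (h : V → ℝ) (x : V) : ℝ :=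
  (∑ y ∈ univ.filter (fun y => col y = col x), h y) / ((univ.filter (fun y => col y = col x)).card : ℝ)

end

end Pool.Agent.Lib.MP_8d8c46_lc.CW
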