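import Pool.Agent.Lib.MP_8d8c46_lc.CW.Ops

/-!
# Campaign CW: stable systems of colours (definitions)

`X false` is the vertex set of the Yes instance, `X true` of the No instance.
-/

set_option autoImplicit false

open scoped Classical
open Finset

namespace Pool.Agent.Lib.MP_8d8c46_lc.CW

/-- A stable system of colours with `r` seeds for two graphs; `c i t y` is the colour of `y` over the seeds `t`. -/
structure Sys (r : ℕ) (X : Bool → Type) (G : ∀ i, SimpleGraph (X i)) where
  T : Type
  c : ∀ i, (Fin r → X i) → X i → T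
  a1 : ∀ (i j : Bool) (t : Fin r → X i) (t' : Fin r → X j) (y : X i) (y' : X j), c i t y = c j t' y' →
    ∃ f : X i ≃ X j, ∀ z, c i t z = c j t' (f z) ∧ ((G i).Adj y z ↔ (G j).Adj y' (f z))
  a2 : ∀ (i j : Bool) (t : Fin r → X i) (t' : Fin r → X j) (y : X i) (y' : X j), c i t y = c j t' y' →
    ∀ u : Fin r → X i, ∃ u' : Fin r → X j, c i u y = c j u' y'
  a3 : ∀ (i : Bool) (t u : Fin r → X i) (y z : X i), (∀ p, ∃ q, t p = u q) → c i u y = c i u z → c i t y = c i t z
  a4 : ∀ (i : Bool) (t : Fin r → X i) (y z : X i) (p : Fin r), c i t y = c i t z → y = t p → z = t p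
  a5 : ∀ t : Fin r → X false, ∃ (t' : Fin r → X true) (f : X false ≃ X true), ∀ z, c false t z = c true t' (f z)

section
variable {r : ℕ} {X : Bool → Type} {G : ∀ i, SimpleGraph (X i)}

/-- measurable functions -/
def Meas (S : Sys r X G) (i : Bool) (t : Fin r → X i) (f : X i → ℝ) : Prop :=
  ∀ y z, S.c i t y = S.c i t z → f y = f z

/-- measurable sets -/
def MSet (S : Sys r X G) (i : Bool) (t : Fin r → X i) (R : Finset (X i)) : Prop :=
  ∀ y z, S.c i t y = S.c i t z → y ∈ R → z ∈ R

variable [∀ i, Fintype (X i)]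

/-- the family of the measurable sets of size at most `N / 2` with inner degrees at least `d / 8` -/
def RR (S : Sys r X G) (d : ℕ) (N : ℝ) (i : Bool) (R : Finset (X i)) : Prop :=
  (∃ t, MSet S i t R) ∧ (R.card : ℝ) ≤ N / 2 ∧ ∀ x ∈ R, d ≤ 8 * dg (G i) R x

/-- the union of these sets -/
def WW (S : Sys r X G) (d : ℕ) (N : ℝ) (i : Bool) : Set (X i) := {x | ∃ R, RR S d N i R ∧ x ∈ R}

end

end Pool.Agent.Lib.MP_8d8c46_lc.CW
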