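import Pool.Agent.Lib.MP_8d8c46_lc.Mg.G015
import Pool.Agent.Lib.MP_8d8c46_lc.Mg.G016
import Pool.Agent.Lib.MP_8d8c46_lc.Mg.G017

/-!
# Campaign CW, task F4: systems of equations with expansion and a bad right side
-/

set_option autoImplicit false

open scoped Classical
open Finset

namespace Pool.Agent.Lib.MP_8d8c46_lc.CW

private theorem F4_card8 {J : Type} (y : Fin 3 → J) (G : J × ZMod 2 → Bool) :
    ((univ.filter fun α : Fin 3 → ZMod 2 => ∑ i, bz (G (y i, α i)) ≠ 0 + ∑ i, α i).card : ℝ) +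
      ((univ.filter fun α : Fin 3 → ZMod 2 => ∑ i, bz (G (y i, α i)) ≠ 1 + ∑ i, α i).card : ℝ) = 8 := by
  have h1 : (univ.filter fun α : Fin 3 → ZMod 2 => ∑ i, bz (G (y i, α i)) ≠ 1 + ∑ i, α i) =
      univ.filter fun α : Fin 3 → ZMod 2 => ¬ (∑ i, bz (G (y i, α i)) ≠ 0 + ∑ i, α i) := by
    refine filter_congr fun α _ => ?_
    generalize (∑ i, bz (G (y i, α i))) = u
    generalize (∑ i, α i) = v
    revert u v
    decide
  rw [h1]
  have h2 := card_filter_add_card_filter_not (s := (univ : Finset (Fin 3 → ZMod 2)))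
    (fun α : Fin 3 → ZMod 2 => ∑ i, bz (G (y i, α i)) ≠ 0 + ∑ i, α i)
  have h3 : (univ : Finset (Fin 3 → ZMod 2)).card = 8 := by
    rw [card_univ, Fintype.card_fun, ZMod.card, Fintype.card_fin]
    norm_num
  rw [h3] at h2
  exact_mod_cast h2

private theorem F4_system {n D : ℕ} (hD : 1 ≤ D) (hn : 1 ≤ n) {S : ℕ}
    (hS : 2 * (S : ℝ) ≤ (1 / (432 * D)) ^ 4 * n) : ∃ ω : Fin D → Om n, ¬ BadExp S ω := by
  by_contra hcon
  push Not at hcon
  have h1 := card_badExp (n := n) (D := D) (by omega) (by omega) hS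
  have h2 : (univ.filter (fun ω : Fin D → Om n => BadExp S ω)) = univ :=
    filter_true_of_mem fun ω _ => hcon ω
  rw [h2, card_univ, Fintype.card_fun, Fintype.card_fin] at h1
  push_cast at h1
  have h3 : (0 : ℝ) < (Fintype.card (Om n) : ℝ) ^ D := by
    have : 0 < Fintype.card (Om n) := Fintype.card_pos
    positivity
  linarith

private theorem F4_univ {A : Type} (i1 i2 : Fintype A) (p : A → Prop) (d1 d2 : DecidablePred p) :
    (@Finset.filter A p d1 (@Finset.univ A i1)).card =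
      (@Finset.filter A p d2 (@Finset.univ A i2)).card := by
  have h1 : i1 = i2 := Subsingleton.elim _ _
  have h2 : d1 = d2 := Subsingleton.elim _ _
  subst h1
  subst h2
  rfl

private theorem F4_side {ε : ℝ} (hε : 0 < ε) {n D : ℕ} (hn : 1 ≤ n) (hD : 3 / ε ^ 2 ≤ D)
    (x : Fin n × Fin D → Fin 3 → Fin n × Fin 3) :
    ∃ b : Fin n × Fin D → ZMod 2, ∀ G : (Fin n × Fin 3) × ZMod 2 → Bool, (4 - 8 * ε) * (D * n) ≤
          ∑ e, ((univ.filter fun α : Fin 3 → ZMod 2 => ∑ i, bz (G (x e i, α i)) ≠ b e + ∑ i, α i).card : ℝ) := by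
  by_contra hcon
  push Not at hcon
  let s : ((Fin n × Fin 3) × ZMod 2 → Bool) → Fin n × Fin D → ZMod 2 → ℝ := fun G e β =>
    ((univ.filter fun α : Fin 3 → ZMod 2 => ∑ i, bz (G (x e i, α i)) ≠ β + ∑ i, α i).card : ℝ)
  let bad : ((Fin n × Fin 3) × ZMod 2 → Bool) → Finset (Fin n × Fin D → ZMod 2) := fun G =>
    univ.filter fun b : Fin n × Fin D → ZMod 2 =>
      ∑ e, s G e (b e) ≤ (4 - 8 * ε) * Fintype.card (Fin n × Fin D)
  have hcard : ((Fintype.card (Fin n × Fin D) : ℕ) : ℝ) = D * n := by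
    rw [Fintype.card_prod, Fintype.card_fin, Fintype.card_fin]
    push_cast
    ring
  have hcov : (univ : Finset (Fin n × Fin D → ZMod 2)) ⊆ univ.biUnion bad := by
    intro b _
    obtain ⟨G, hG⟩ := hcon b
    refine mem_biUnion.mpr ⟨G, mem_univ _, ?_⟩
    refine mem_filter.mpr ⟨mem_univ _, ?_⟩
    rw [hcard]
    exact hG.le
  have hbad : ∀ G, ((bad G).card : ℝ) ≤ 2 ^ Fintype.card (Fin n × Fin D) * Real.exp (-(6 * n)) := by
    intro G
    have h1 : ((bad G).card : ℝ) ≤ 2 ^ Fintype.card (Fin n × Fin D) *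
        Real.exp (-((8 * ε) ^ 2 * Fintype.card (Fin n × Fin D) / 32)) := by
      have key := hoeff (s G) (fun e => F4_card8 (x e) G) (fun e β => Nat.cast_nonneg _)
        (t := 8 * ε) (by positivity)
      refine le_trans (le_of_eq ?_) key
      exact congrArg Nat.cast (F4_univ _ _ _ _ _)
    refine h1.trans ?_
    refine mul_le_mul_of_nonneg_left (Real.exp_le_exp.mpr ?_) (by positivity)
    rw [hcard]
    have h2 : 3 ≤ ε ^ 2 * D := by
      rw [div_le_iff₀ (by positivity)] at hD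
      linarith
    have hn' : (0 : ℝ) ≤ n := Nat.cast_nonneg n
    nlinarith [mul_le_mul_of_nonneg_right h2 hn']
  have htot : (2 : ℝ) ^ Fintype.card (Fin n × Fin D) ≤
      64 ^ n * (2 ^ Fintype.card (Fin n × Fin D) * Real.exp (-(6 * n))) := by
    have h1 := card_le_card hcov
    have h2 : (univ.biUnion bad).card ≤ ∑ G, (bad G).card := card_biUnion_le
    have h3 : ((univ : Finset (Fin n × Fin D → ZMod 2)).card : ℝ) ≤ ∑ G, ((bad G).card : ℝ) := by
      exact_mod_cast h1.trans h2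
    rw [card_univ, Fintype.card_fun, ZMod.card] at h3
    push_cast at h3
    refine h3.trans ((sum_le_sum fun G _ => hbad G).trans ?_)
    rw [sum_const, card_univ, Fintype.card_fun, Fintype.card_bool, Fintype.card_prod,
      Fintype.card_prod, Fintype.card_fin, Fintype.card_fin, ZMod.card, nsmul_eq_mul]
    refine le_of_eq ?_
    push_cast
    have h64 : (2 : ℝ) ^ (n * 3 * 2) = 64 ^ n := by
      rw [show n * 3 * 2 = 6 * n by ring, pow_mul]
      norm_num
    rw [h64]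
  have hlt : (64 : ℝ) ^ n * Real.exp (-(6 * n)) < 1 := by
    have h1 : Real.exp (-(6 * (n : ℝ))) = (Real.exp 1 ^ 6)⁻¹ ^ n := by
      rw [Real.exp_neg, ← Real.exp_nat_mul, inv_pow, ← Real.exp_nat_mul]
      push_cast
      congr 2
      ring
    rw [h1, ← mul_pow]
    have h2 : (2.7 : ℝ) < Real.exp 1 := by
      have := Real.exp_one_gt_d9
      linarith
    refine pow_lt_one₀ (by positivity) ?_ (by omega)
    rw [← div_eq_mul_inv, div_lt_one (by positivity)]
    calc (64 : ℝ) < 2.7 ^ 6 := by norm_num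
      _ < Real.exp 1 ^ 6 := pow_lt_pow_left₀ h2 (by norm_num) (by norm_num)
  have hpos : (0 : ℝ) < 2 ^ Fintype.card (Fin n × Fin D) := by positivity
  have : (64 : ℝ) ^ n * (2 ^ Fintype.card (Fin n × Fin D) * Real.exp (-(6 * n))) <
      2 ^ Fintype.card (Fin n × Fin D) := by
    calc (64 : ℝ) ^ n * (2 ^ Fintype.card (Fin n × Fin D) * Real.exp (-(6 * n)))
        = 2 ^ Fintype.card (Fin n × Fin D) * (64 ^ n * Real.exp (-(6 * n))) := by ring
      _ < 2 ^ Fintype.card (Fin n × Fin D) * 1 := mul_lt_mul_of_pos_left hlt hpos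
      _ = _ := mul_one _
  linarith

/-- The expansion survives when the three slots of the equations get different variables. -/
private theorem F4_tri {I E : Type} [Fintype I] [Fintype E] {x : E → Fin 3 → I} {s : ℕ} (h : Expands x s) :
    Expands (fun e i => (x e i, i)) s := by
  intro F hF U hU
  have hc : (U.image Prod.fst).card ≤ U.card := card_image_le
  obtain ⟨v, hv, hb⟩ := h F hF (U.image Prod.fst) (by omega)
  have hb1 : occ x F v = 1 := hb
  unfold occ at hb1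
  rw [card_eq_one] at hb1
  obtain ⟨⟨e, i⟩, hei⟩ := hb1
  refine ⟨(v, i), fun hU' => hv (mem_image.2 ⟨(v, i), hU', rfl⟩), ?_⟩
  show occ (fun e i => (x e i, i)) F (v, i) = 1
  unfold occ
  rw [card_eq_one]
  refine ⟨(e, i), ?_⟩
  ext ⟨e', j⟩
  have hmem : ∀ e' j, (e' ∈ F ∧ x e' j = v) ↔ (e' = e ∧ j = i) := by
    intro e' j
    have := Finset.ext_iff.1 hei (e', j)
    simp only [mem_filter, mem_product, mem_univ, and_true, mem_singleton, Prod.mk.injEq] at this
    exact this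
  simp only [mem_filter, mem_product, mem_univ, and_true, mem_singleton, Prod.mk.injEq]
  constructor
  · rintro ⟨h1, h2, h3⟩
    exact (hmem e' j).1 ⟨h1, h2⟩
  · rintro ⟨rfl, rfl⟩
    have := (hmem e' j).2 ⟨rfl, rfl⟩
    exact ⟨this.1, this.2, rfl⟩

/-- PROOF. `D = ⌈3 / ε ^ 2⌉₊`, `β = (1 / (432 D)) ^ 4`, `c = β / 4`. (1) `S = ⌊β n / 2⌋₊`: `card_badExp` (library Expansion.lean) gives `ω : Fin D → Om n` with `¬ BadExp S ω` (the number of all `ω` is `card (Om n) ^ D > 0`); `x e i = (rx ω e i, i)`, `s = ⌊c n⌋₊ `, `2 * s ≤ S`, `expands_of_not_bad`; `c * n < s + 1`.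
(2) for fixed `G` let `s e β` be the number of `α : Fin 3 → ZMod 2` with `∑ bz (G (x e i, α i)) ≠ β + ∑ α i`: `s e 0 + s e 1 = 8` (for each `α` exactly one of `β = 0, 1`). `hoeff` with `t = 8 ε`: the number of bad `b` for `G` is at most
`2 ^ (n D) * exp (- 2 ε ^ 2 n D) ≤ 2 ^ (n D) * exp (- 6 n)`. There are `64 ^ n` functions `G` and `64 ^ n * exp (- 6 n) < 1` (`e > 2.7`, `n ≥ 1`), so some `b` is good for all `G`. -/
theorem exists_system {ε : ℝ} (hε : 0 < ε) :
    ∃ (D : ℕ) (c : ℝ), 1 ≤ D ∧ 0 < c ∧ ∀ n : ℕ, 1 ≤ n →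
      ∃ (x : Fin n × Fin D → Fin 3 → Fin n × Fin 3) (b : Fin n × Fin D → ZMod 2) (s : ℕ),
        (∀ e i, (x e i).2 = i) ∧ Expands x s ∧ c * n < s + 1 ∧
        ∀ G : (Fin n × Fin 3) × ZMod 2 → Bool, (4 - 8 * ε) * (D * n) ≤
          ∑ e, ((univ.filter fun α : Fin 3 → ZMod 2 => ∑ i, bz (G (x e i, α i)) ≠ b e + ∑ i, α i).card : ℝ) := by
  set D : ℕ := ⌈3 / ε ^ 2⌉₊ with hDdef
  have hpos : 0 < 3 / ε ^ 2 := by positivity
  have hD1 : 1 ≤ D := Nat.one_le_iff_ne_zero.mpr (Nat.ceil_pos.mpr hpos).ne'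
  have hDr : 3 / ε ^ 2 ≤ D := Nat.le_ceil _
  have hD' : (1 : ℝ) ≤ D := by exact_mod_cast hD1
  set β : ℝ := (1 / (432 * D)) ^ 4 with hβ
  have hβ0 : 0 < β := by positivity
  refine ⟨D, β / 4, hD1, by positivity, ?_⟩
  intro n hn
  have hn' : (0 : ℝ) < n := by exact_mod_cast hn
  have hS : 2 * ((⌊β * n / 2⌋₊ : ℕ) : ℝ) ≤ β * n := by
    have := Nat.floor_le (show 0 ≤ β * n / 2 by positivity)
    linarith
  obtain ⟨ω, hω⟩ := F4_system hD1 hn hS
  obtain ⟨b, hb⟩ := F4_side hε hn hDr (fun e i => (rx ω e i, i))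
  refine ⟨fun e i => (rx ω e i, i), b, ⌊β / 4 * n⌋₊, fun _ _ => rfl, ?_, Nat.lt_floor_add_one _, hb⟩
  refine F4_tri (expands_of_not_bad ?_ hω)
  refine Nat.le_floor ?_
  have := Nat.floor_le (show 0 ≤ β / 4 * n by positivity)
  push_cast
  linarith

end Pool.Agent.Lib.MP_8d8c46_lc.CW
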