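import Pool.Agent.Lib.MP_8d8c46_lc.Mg.G015

/-!
# Campaign CW, task F5: the value of the formula
-/

set_option autoImplicit false

open scoped Classical
open Finset

namespace Pool.Agent.Lib.MP_8d8c46_lc.CW

/-- PROOF: if `x e = x e'`, `e ≠ e'`, then in `F = {e, e'}` every variable occurs an even number of times, but `Expands` (`2 * s ≥ 2`, `U = ∅`) gives a variable with `occ = 1`. -/
theorem x_inj {I E : Type} [Fintype I] [Fintype E] {x : E → Fin 3 → I} {s : ℕ} (h : Expands x s) (hs : 1 ≤ s) : Function.Injective x := by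
  intro e e' hee
  by_contra hne
  have hcard : ({e, e'} : Finset E).card = 2 := Finset.card_pair hne
  obtain ⟨v, -, hv⟩ := h {e, e'} (by omega) ∅ (by simp [hcard])
  have h1 : occ x {e, e'} v = 1 := hv
  have h2 : occ x {e, e'} v = 2 * (∑ i, if x e i = v then 1 else 0) := by
    unfold occ
    rw [Finset.card_filter, Finset.sum_product, Finset.sum_pair hne]
    show (∑ i, if x e i = v then 1 else 0) + (∑ i, if x e' i = v then 1 else 0) = _
    rw [← hee]
    ring
  omega

private theorem F5_four (t : ZMod 2) :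
    (univ.filter fun σ : Fin 3 → Bool => ∑ i, bz (!(σ i)) ≠ t).card = 4 := by
  have h : ∀ t : ZMod 2, (@Finset.filter (Fin 3 → Bool) (fun σ => ∑ i, bz (!(σ i)) ≠ t)
      (fun _ => instDecidableNot) univ).card = 4 := by
    unfold bz
    decide
  rw [← h t]

private theorem F5_count {I E V : Type} [Fintype I] [Fintype E] [Fintype V] (emb : I × ZMod 2 ↪ V)
    (x : E → Fin 3 → I) (b : E → ZMod 2) :
    (phi emb x b).ncard ≤ 32 * Fintype.card E := by
  have h0 : (phi emb x b).ncard = ((fun c => c.1) '' (phi emb x b)).ncard :=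
    (Set.ncard_image_of_injective _ Subtype.val_injective).symm
  rw [h0]
  have h1 : (fun c => c.1) '' (phi emb x b) ⊆
      ((univ.filter fun q : (E × (Fin 3 → ZMod 2)) × (Fin 3 → Bool) =>
        ∑ i, bz (!(q.2 i)) ≠ b q.1.1 + ∑ i, q.1.2 i).image
        fun q => ecl emb x q.1.1 q.1.2 q.2 : Finset (Finset (V × Bool))) := by
    rintro _ ⟨c, ⟨e, α, σ, hσ, hc⟩, rfl⟩
    rw [Finset.mem_coe, Finset.mem_image]
    exact ⟨((e, α), σ), by simpa using hσ, hc.symm⟩
  refine (Set.ncard_le_ncard h1 (Set.toFinite _)).trans ?_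
  rw [Set.ncard_coe_finset]
  refine Finset.card_image_le.trans ?_
  rw [Finset.card_filter, ← Finset.univ_product_univ, Finset.sum_product]
  have h2 : ∀ p : E × (Fin 3 → ZMod 2), (∑ σ : Fin 3 → Bool,
      if ∑ i, bz (!(σ i)) ≠ b p.1 + ∑ i, p.2 i then 1 else 0) = 4 := by
    intro p
    rw [← Finset.card_filter]
    exact F5_four _
  rw [Finset.sum_congr rfl (fun p _ => h2 p), Finset.sum_const, Finset.card_univ, Fintype.card_prod]
  have h3 : Fintype.card (Fin 3 → ZMod 2) = 8 := by
    rw [Fintype.card_fun, ZMod.card, Fintype.card_fin]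
    norm_num
  rw [h3, smul_eq_mul]
  omega

/-- the clauses of an equation with different variables -/
private theorem F5_cl {I E V : Type} (emb : I × ZMod 2 ↪ V) {x : E → Fin 3 → I}
    (hd : ∀ e, Function.Injective (x e)) (e : E) (α : Fin 3 → ZMod 2) (σ : Fin 3 → Bool) :
    (ecl emb x e α σ).card = 3 ∧ Set.InjOn Prod.fst (ecl emb x e α σ : Set (V × Bool)) := by
  have hinj : ∀ i j, emb (x e i, α i) = emb (x e j, α j) → i = j := by
    intro i j h
    exact hd e (congrArg Prod.fst (emb.injective h))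
  constructor
  · unfold ecl
    rw [card_image_of_injective, card_univ, Fintype.card_fin]
    intro i j h
    exact hinj i j (congrArg Prod.fst h)
  · unfold ecl
    rw [coe_image]
    rintro _ ⟨i, -, rfl⟩ _ ⟨j, -, rfl⟩ h
    rw [hinj i j h]

private theorem F5_viol {I E V : Type} [Fintype I] [Fintype E] [Fintype V] (emb : I × ZMod 2 ↪ V)
    {x : E → Fin 3 → I} (b : E → ZMod 2) (hx : Function.Injective x) (hd : ∀ e, Function.Injective (x e))
    (hslot : ∀ e e' i j, x e i = x e' j → i = j) (g : V → Bool) :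
    (∑ e, (univ.filter fun α : Fin 3 → ZMod 2 =>
      ∑ i, bz (g (emb (x e i, α i))) ≠ b e + ∑ i, α i).card) ≤
      {c ∈ phi emb x b | ¬ ∃ l ∈ c.1, g l.1 = l.2}.ncard := by
  have h0 : (∑ e, (univ.filter fun α : Fin 3 → ZMod 2 =>
      ∑ i, bz (g (emb (x e i, α i))) ≠ b e + ∑ i, α i).card) =
      (univ.filter fun q : E × (Fin 3 → ZMod 2) =>
        ∑ i, bz (g (emb (x q.1 i, q.2 i))) ≠ b q.1 + ∑ i, q.2 i).card := by
    rw [Finset.card_filter, ← Finset.univ_product_univ, Finset.sum_product]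
    refine Finset.sum_congr rfl fun e _ => ?_
    rw [Finset.card_filter]
  rw [h0]
  set f : E × (Fin 3 → ZMod 2) → {c : Finset (V × Bool) // c.card = 3 ∧ Set.InjOn Prod.fst (c : Set (V × Bool))} :=
    fun q => ⟨ecl emb x q.1 q.2 (fun i => !(g (emb (x q.1 i, q.2 i)))), F5_cl emb hd _ _ _⟩ with hf
  have hinj : Set.InjOn f
      ((univ.filter fun q : E × (Fin 3 → ZMod 2) =>
        ∑ i, bz (g (emb (x q.1 i, q.2 i))) ≠ b q.1 + ∑ i, q.2 i : Finset _) : Set _) := by
    rintro ⟨e, α⟩ - ⟨e', α'⟩ - h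
    have h1 : ∀ i, x e i = x e' i ∧ α i = α' i := by
      intro i
      have h2 : (emb (x e i, α i), !(g (emb (x e i, α i)))) ∈
          ecl emb x e' α' (fun i => !(g (emb (x e' i, α' i)))) := by
        have h3 : ecl emb x e α (fun i => !(g (emb (x e i, α i)))) =
          ecl emb x e' α' (fun i => !(g (emb (x e' i, α' i)))) := congrArg Subtype.val h
        rw [← h3]
        exact mem_image.2 ⟨i, mem_univ _, rfl⟩
      unfold ecl at h2
      rw [mem_image] at h2
      obtain ⟨j, -, hj⟩ := h2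
      have h4 := emb.injective (congrArg Prod.fst hj)
      have h5 : x e' j = x e i := congrArg Prod.fst h4
      have h6 : α' j = α i := congrArg Prod.snd h4
      have h7 : j = i := hslot _ _ _ _ h5
      subst h7
      exact ⟨h5.symm, h6.symm⟩
    have h4 : e = e' := hx (funext fun i => (h1 i).1)
    have h5 : α = α' := funext fun i => (h1 i).2
    rw [h4, h5]
  rw [← Finset.card_image_of_injOn hinj, ← Set.ncard_coe_finset]
  refine Set.ncard_le_ncard ?_ (Set.toFinite _)
  intro c hc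
  rw [Finset.mem_coe, Finset.mem_image] at hc
  obtain ⟨⟨e, α⟩, hq, rfl⟩ := hc
  rw [Finset.mem_filter] at hq
  refine ⟨⟨e, α, _, ?_, rfl⟩, ?_⟩
  · have := hq.2
    simpa using this
  · rintro ⟨l, hl, hgl⟩
    rw [hf] at hl
    simp only [ecl, mem_image, mem_univ, true_and] at hl
    obtain ⟨i, rfl⟩ := hl
    revert hgl
    show g (emb (x e i, α i)) = !(g (emb (x e i, α i))) → False
    cases g (emb (x e i, α i)) <;> simp

/-- PROOF. Fix `g : V → Bool`, `N = (phi emb x b).ncard`. (1) `N ≤ 32 * card E`: `phi` is the image of the set of `(e, α, σ)` with `∑ bz (!(σ i)) ≠ b e + ∑ α i` (for each `e, α` there are `4` such `σ`).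
(2) The clauses `c ∈ phi` not satisfied by `g` are at least as many as the pairs `(e, α)` whose equation is violated: `(e, α) ↦ ecl emb x e α (fun i => !(g (emb (x e i, α i))))` is injective and the clause is in `phi` and not satisfied. So the number of satisfied clauses is at most
`N - (4 - 8 ε) D n`, and `(4 - 8 ε) D n > (1 / 8 - ε) N` because `(1 / 8 - ε) N ≤ (1 / 8 - ε) 32 D n`. -/
theorem phi_value {n D : ℕ} {J V : Type} [Fintype J] [Fintype V] (emb : J × ZMod 2 ↪ V)
    {x : Fin n × Fin D → Fin 3 → J} {b : Fin n × Fin D → ZMod 2} {ε : ℝ} (hε : 0 < ε) (hε1 : ε ≤ 1 / 8)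
    (hn : 1 ≤ n) (hD : 1 ≤ D) (hx : Function.Injective x) (hd : ∀ e, Function.Injective (x e))
    (hslot : ∀ e e' i j, x e i = x e' j → i = j)
    (hb : ∀ G : J × ZMod 2 → Bool, (4 - 8 * ε) * (D * n) ≤
      ∑ e, ((univ.filter fun α : Fin 3 → ZMod 2 => ∑ i, bz (G (x e i, α i)) ≠ b e + ∑ i, α i).card : ℝ)) :
    ValueLt (7 / 8 + ε) (phi emb x b) := by
  intro g
  have h1 := F5_count emb x b
  have h2 := F5_viol emb b hx hd hslot g
  have h3 := hb (fun q => g (emb q))
  have h4 : {c ∈ phi emb x b | ∃ l ∈ c.1, g l.1 = l.2}.ncard +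
      {c ∈ phi emb x b | ¬ ∃ l ∈ c.1, g l.1 = l.2}.ncard = (phi emb x b).ncard := by
    rw [← Set.ncard_union_eq _ (Set.toFinite _) (Set.toFinite _)]
    · congr 1
      ext c
      constructor
      · rintro (h | h)
        · exact h.1
        · exact h.1
      · intro h
        by_cases hc : ∃ l ∈ c.1, g l.1 = l.2
        · exact Or.inl ⟨h, hc⟩
        · exact Or.inr ⟨h, hc⟩
    · rw [Set.disjoint_left]
      rintro c ⟨-, h⟩ ⟨-, h'⟩
      exact h' h
  have h1' : ((phi emb x b).ncard : ℝ) ≤ 32 * (n * D) := by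
    rw [Fintype.card_prod, Fintype.card_fin, Fintype.card_fin] at h1
    exact_mod_cast h1
  have h2' : (4 - 8 * ε) * (D * n) ≤
      ({c ∈ phi emb x b | ¬ ∃ l ∈ c.1, g l.1 = l.2}.ncard : ℝ) := by
    refine h3.trans ?_
    rw [← Nat.cast_sum]
    exact_mod_cast h2
  have h4' : ({c ∈ phi emb x b | ∃ l ∈ c.1, g l.1 = l.2}.ncard : ℝ) +
      ({c ∈ phi emb x b | ¬ ∃ l ∈ c.1, g l.1 = l.2}.ncard : ℝ) = ((phi emb x b).ncard : ℝ) := by
    exact_mod_cast h4
  have hn' : (1 : ℝ) ≤ n := by exact_mod_cast hn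
  have hD' : (1 : ℝ) ≤ D := by exact_mod_cast hD
  have hDn : (0 : ℝ) < D * n := by positivity
  set N : ℝ := ((phi emb x b).ncard : ℝ) with hN
  have h9 : (1 / 8 - ε) * N ≤ (1 / 8 - ε) * (32 * (n * D)) :=
    mul_le_mul_of_nonneg_left h1' (by linarith)
  have h10 : (1 / 8 - ε) * (32 * (n * D)) < (4 - 8 * ε) * (D * n) := by
    have h11 : (4 - 8 * ε) * (D * n) - (1 / 8 - ε) * (32 * (n * D)) = 24 * ε * (D * n) := by ring
    have h12 : 0 < 24 * ε * (D * n : ℝ) := by positivity
    linarith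
  have h13 : (7 / 8 + ε) * N = N - (1 / 8 - ε) * N := by ring
  rw [h13]
  linarith

end Pool.Agent.Lib.MP_8d8c46_lc.CW
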