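import Pool.Agent.Lib.MP_8d8c46_lc.CW.F2
import Pool.Agent.Lib.MP_8d8c46_lc.CW.F4
import Pool.Agent.Lib.MP_8d8c46_lc.CW.F5

/-!
# Campaign CW, task F6: equivalent formulas, one satisfiable, one of value less than 7/8 + ε (Lemma 13)
-/

set_option autoImplicit false

open scoped Classical
open Finset

namespace Pool.Agent.Lib.MP_8d8c46_lc.CW

/-- PROOF. `ε' = min ε (1 / 8)`; `D, c` from `exists_system ε'`, `c₀ = min (c / 33) (1 / 6)`. `1 ≤ k ≤ c₀ n` gives `n ≥ 6`, `m = n / 6 ≥ n / 11`, `m ≥ 1`; `x, b, s` for `m`: `s + 1 > c m ≥ c n / 11 ≥ 3 k`, so `2 k ≤ s` and `1 ≤ s`. `(Fin m × Fin 3) × ZMod 2` has `6 m ≤ n` elements: an embedding `emb` into `Fin n`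
(`Function.Embedding.nonempty_of_card_le`). `φ = phi emb x 0` (`phi_sat`), `ψ = phi emb x b` (`phi_value` with `ε'`, `x_inj`; `ValueLt` is monotone in the bound), `phi_cov`. -/
theorem lemma13 {ε : ℝ} (hε : 0 < ε) :
    ∃ c : ℝ, 0 < c ∧ ∀ n k : ℕ, 1 ≤ k → (k : ℝ) ≤ c * n →
      ∃ φ ψ : Formula (Fin n), Satisfiable φ ∧ ValueLt (7 / 8 + ε) ψ ∧ Cov k (toStruct φ) (toStruct ψ) ∅ := by
  have hε' : 0 < min ε (1 / 8) := lt_min hε (by norm_num)
  obtain ⟨D, c, hD1, hc, H⟩ := exists_system hε'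
  refine ⟨min (c / 33) (1 / 6), lt_min (by positivity) (by positivity), fun n k hk1 hk => ?_⟩
  have hk1' : (1 : ℝ) ≤ k := by exact_mod_cast hk1
  have hn0 : (0 : ℝ) ≤ n := Nat.cast_nonneg n
  have h1 : (k : ℝ) ≤ 1 / 6 * n := hk.trans (mul_le_mul_of_nonneg_right (min_le_right _ _) hn0)
  have h2 : (k : ℝ) ≤ c / 33 * n := hk.trans (mul_le_mul_of_nonneg_right (min_le_left _ _) hn0)
  have hn2 : 6 ≤ n := by
    have : (6 : ℝ) ≤ n := by linarith
    exact_mod_cast this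
  have hm1 : 1 ≤ n / 6 := by omega
  obtain ⟨x, b, s, hslot, hexp, hs, hb⟩ := H (n / 6) hm1
  have h3 : (n : ℝ) ≤ 11 * ((n / 6 : ℕ) : ℝ) := by
    have : n ≤ 11 * (n / 6) := by omega
    exact_mod_cast this
  have h4 : (3 * k : ℝ) < s + 1 := by
    calc (3 * k : ℝ) ≤ 3 * (c / 33 * n) := by linarith
      _ = c / 11 * n := by ring
      _ ≤ c / 11 * (11 * ((n / 6 : ℕ) : ℝ)) := mul_le_mul_of_nonneg_left h3 (by positivity)
      _ = c * ((n / 6 : ℕ) : ℝ) := by ring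
      _ < s + 1 := hs
  have h5 : 3 * k < s + 1 := by exact_mod_cast h4
  have hcard : Fintype.card ((Fin (n / 6) × Fin 3) × ZMod 2) ≤ Fintype.card (Fin n) := by
    rw [Fintype.card_prod, Fintype.card_prod, Fintype.card_fin, Fintype.card_fin, Fintype.card_fin, ZMod.card]
    omega
  obtain ⟨emb⟩ := Function.Embedding.nonempty_of_card_le hcard
  have hslot' : ∀ e e' i j, x e i = x e' j → i = j := by
    intro e e' i j h
    rw [← hslot e i, ← hslot e' j, h]
  refine ⟨phi emb x fun _ => 0, phi emb x b, phi_sat emb x, ?_, phi_cov emb hexp hk1 (by omega)⟩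
  intro g
  have h6 := phi_value emb hε' (min_le_right _ _) hm1 hD1 (x_inj hexp (by omega))
    (fun e i j h => hslot' e e i j h) hslot' hb g
  exact h6.trans_le (mul_le_mul_of_nonneg_right (add_le_add_right (min_le_left _ _) _)
    (Nat.cast_nonneg _))

end Pool.Agent.Lib.MP_8d8c46_lc.CW
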