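import Pool.Agent.Lib.MP_8d8c46_lc.Mg.G015
import Pool.Agent.Lib.MP_8d8c46_lc.Mg.G016

/-!
# Campaign CW, task G3: the matching of the classes (Lemma 12, first part)
-/

set_option autoImplicit false

open scoped Classical
open Finset

namespace Pool.Agent.Lib.MP_8d8c46_lc.CW

section
variable {ι V L : Type} [Fintype V] [Fintype L] {a r m : ℕ} (F : SymMap ι V L a r) {A B : Struct ι V}

/-- PROOF. `β` from `Cov.tuple` for `s`. `F.dom A (l, u) ↔ F.dom B (l, β u)`: `F.dom_inv`, `Cov.eqv`, `Cov.sub`, `Cov.pebbles` to `2 a + r` pebbles (`prs_card`: `a ≤ 2 a + r`). So `e ⟨(l, u), _⟩ = ⟨(l, β u), _⟩` is an equivalence of the domains (`Equiv.subtypeEquiv` of `Equiv.prodCongr`).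
Sizes of the classes: fix `x = (l, u)` in the domain, `s' = s ∪ prs u (β u)`, `card s' + a ≤ m`, `γ` from `Cov.tuple` for `s'`. For all `l', u'`: `Cov m A B (prs u' (γ u') ∪ prs u (β u))`, so `F.dom A (l', u') ↔ F.dom B (l', γ u')` and `F.eqv A (l', u') (l, u) ↔ F.eqv B (l', γ u') (l, β u)`
(`F.eqv_inv`, `prs_append`). So `(l', u') ↦ (l', γ u')` is a bijection between the two classes. Then `hall_classes`. -/
theorem match_step (hr : 2 * a + r ≤ m) {s : Finset (V × V)} (hs : s.card + 2 * a ≤ m) (h : Cov m A B s) :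
    ∃ φ : F.Vtx A ≃ F.Vtx B, ∀ c : F.Vtx A, ∃ (l : L) (u w : Fin a → V) (hu : F.dom A (l, u)) (hw : F.dom B (l, w)),
      Quotient.mk (F.setoid A) ⟨(l, u), hu⟩ = c ∧ Quotient.mk (F.setoid B) ⟨(l, w), hw⟩ = φ c ∧
        Cov m A B (s ∪ prs u w) := by
  obtain ⟨β, hβ⟩ := h.tuple a (by omega)
  have hdom : ∀ (γ : (Fin a → V) ≃ (Fin a → V)) (t : Finset (V × V)),
      (∀ u, Cov m A B (t ∪ prs u (γ u))) → ∀ (l : L) (u : Fin a → V),
      (F.dom A (l, u) ↔ F.dom B (l, γ u)) := by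
    intro γ t hγ l u
    refine F.dom_inv A B l u (γ u) (Cov.eqv (Cov.pebbles ((hγ u).sub subset_union_right) hr ?_))
    have := prs_card u (γ u)
    omega
  let mkE : ∀ (γ : (Fin a → V) ≃ (Fin a → V)) (t : Finset (V × V)),
      (∀ u, Cov m A B (t ∪ prs u (γ u))) →
      ({x : L × (Fin a → V) // F.dom A x} ≃ {x : L × (Fin a → V) // F.dom B x}) :=
    fun γ t hγ => Equiv.subtypeEquiv (Equiv.prodCongr (Equiv.refl L) γ)
      (fun x => hdom γ t hγ x.1 x.2)
  have hc : ∀ x : {x : L × (Fin a → V) // F.dom A x},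
      (univ.filter fun y => F.setoid A y x).card =
        (univ.filter fun z => F.setoid B z (mkE β s hβ x)).card := by
    rintro ⟨⟨l, u⟩, hx⟩
    have hcard : (s ∪ prs u (β u)).card + a ≤ m := by
      have h1 := card_union_le s (prs u (β u))
      have h2 := prs_card u (β u)
      omega
    obtain ⟨γ, hγ⟩ := (hβ u).tuple a hcard
    refine Finset.card_equiv (mkE γ _ hγ) ?_
    rintro ⟨⟨l', u'⟩, hy⟩
    simp only [mem_filter, mem_univ, true_and]
    show F.eqv A (l', u') (l, u) ↔ F.eqv B (l', γ u') (l, β u)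
    have hsub : prs u' (γ u') ∪ prs u (β u) ⊆ s ∪ prs u (β u) ∪ prs u' (γ u') := by
      intro z hz
      rw [mem_union] at hz
      rw [mem_union, mem_union]
      tauto
    refine F.eqv_inv A B l' l u' u (γ u') (β u) (Cov.eqv ?_)
    rw [prs_append]
    refine Cov.pebbles ((hγ u').sub hsub) hr ?_
    have h1 := card_union_le (prs u' (γ u')) (prs u (β u))
    have h2 := prs_card u (β u)
    have h3 := prs_card u' (γ u')
    omega
  obtain ⟨φ, hφ⟩ := hall_classes (F.setoid A) (F.setoid B) (mkE β s hβ) hc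
  refine ⟨φ, fun c => ?_⟩
  obtain ⟨⟨⟨l, u⟩, hx⟩, h1, h2⟩ := hφ c
  exact ⟨l, u, β u, hx, (hdom β s hβ l u).1 hx, h1, h2, hβ u⟩

end

end Pool.Agent.Lib.MP_8d8c46_lc.CW
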