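import Pool.Agent.Lib.MP_8d8c46_lc.CW.G3

/-!
# Campaign CW, task G4: equivalent structures have equivalent images (Lemma 12)
-/

set_option autoImplicit false

open scoped Classical
open Finset

namespace Pool.Agent.Lib.MP_8d8c46_lc.CW

section
variable {ι V L : Type} [Fintype V] [Fintype L] {a r m : ℕ} (F : SymMap ι V L a r) {A B : Struct ι V}

/-- PROOF. The positions: `𝒲 = {pos | ∃ t : Fin k → Finset (V × V), (∀ p, (t p).card ≤ a) ∧ Cov m A B (univ.biUnion t) ∧ ∀ p c c', pos p = some (c, c') → ∃ l u w hu hw, c = Quotient.mk _ ⟨(l, u), hu⟩ ∧ c' = Quotient.mk _ ⟨(l, w), hw⟩ ∧ prs u w ⊆ t p}`. The empty position: `t = fun _ => ∅`.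
Partial isomorphism: for pebbles `p, q` with representatives `(l, u), (l, w)` and `(l', u'), (l', w')`: `prs u w ∪ prs u' w' ⊆ univ.biUnion t`, so (`Cov.sub`, `Cov.pebbles` to `2 a + r`, `prs_append`, `Cov.eqv`) `F.eqv_inv` and `F.adj_inv` apply (`Quotient.eq`; the adjacency of `F.graph` on representatives is `F.adj` by `Iff.rfl`).
Move of `p`: `s` = union of the `t q`, `q ≠ p`: `card s ≤ (k - 1) * a`, so `card s + 2 * a ≤ (k + 1) * a ≤ m`; `Cov m A B s` by `Cov.sub`; the bijection `φ` of `match_step`; the new `t` is `Function.update t p (prs u w)`. -/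
theorem lemma12 (hr : 2 * a + r ≤ m) {k : ℕ} (hk : (k + 1) * a ≤ m) (h : Cov m A B ∅) :
    PebbleEquiv k (F.graph A) (F.graph B) := by
  refine ⟨{pos | ∃ t : Fin k → Finset (V × V), (∀ p, (t p).card ≤ a) ∧
    Cov m A B (univ.biUnion t) ∧ ∀ p c c', pos p = some (c, c') →
      ∃ (l : L) (u w : Fin a → V) (hu : F.dom A (l, u)) (hw : F.dom B (l, w)),
        Quotient.mk (F.setoid A) ⟨(l, u), hu⟩ = c ∧
        Quotient.mk (F.setoid B) ⟨(l, w), hw⟩ = c' ∧ prs u w ⊆ t p}, ?_, ?_⟩
  · refine ⟨fun _ => ∅, fun _ => by simp, ?_, ?_⟩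
    · have h0 : (univ.biUnion fun _ : Fin k => (∅ : Finset (V × V))) = ∅ := by
        ext x
        simp
      rw [h0]
      exact h
    · intro p c c' hc
      simp at hc
  · rintro pos ⟨t, ht, hcov, hpos⟩
    refine ⟨?_, ?_⟩
    · rintro p q ⟨c, c'⟩ ⟨d, d'⟩ hp hq
      obtain ⟨l, u, w, hu, hw, rfl, rfl, hs⟩ := hpos p c c' hp
      obtain ⟨l', u', w', hu', hw', rfl, rfl, hs'⟩ := hpos q d d' hq
      have he : Eqv (2 * a + r) A (Fin.append u u') B (Fin.append w w') := by
        refine Cov.eqv ?_
        rw [prs_append]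
        refine Cov.pebbles (hcov.sub ?_) hr ?_
        · refine union_subset ?_ ?_
          · exact hs.trans (subset_biUnion_of_mem t (mem_univ p))
          · exact hs'.trans (subset_biUnion_of_mem t (mem_univ q))
        · have h1 := card_union_le (prs u w) (prs u' w')
          have h2 := prs_card u w
          have h3 := prs_card u' w'
          omega
      refine ⟨?_, ?_⟩
      · show (Quotient.mk (F.setoid A) ⟨(l, u), hu⟩ = Quotient.mk (F.setoid A) ⟨(l', u'), hu'⟩) ↔
          (Quotient.mk (F.setoid B) ⟨(l, w), hw⟩ = Quotient.mk (F.setoid B) ⟨(l', w'), hw'⟩)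
        rw [Quotient.eq, Quotient.eq]
        exact F.eqv_inv A B l l' u u' w w' he
      · exact F.adj_inv A B l l' u u' w w' he
    · intro p
      have hka : ((univ.erase p).biUnion t).card ≤ (k - 1) * a := by
        refine (card_biUnion_le_card_mul _ _ a fun q _ => ht q).trans ?_
        rw [card_erase_of_mem (mem_univ p), card_univ, Fintype.card_fin]
      have hk1 : (k - 1) * a + 2 * a ≤ m := by
        refine le_trans (le_of_eq ?_) hk
        have hk0 : 0 < k := p.pos
        obtain ⟨k', rfl⟩ : ∃ k', k = k' + 1 := ⟨k - 1, by omega⟩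
        rw [Nat.add_sub_cancel]
        ring
      obtain ⟨φ, hφ⟩ := match_step F hr (s := (univ.erase p).biUnion t) (by omega)
        (hcov.sub (biUnion_subset_biUnion_of_subset_left t (erase_subset p univ)))
      refine ⟨φ, fun c => ?_⟩
      obtain ⟨l, u, w, hu, hw, h1, h2, h3⟩ := hφ c
      refine ⟨Function.update t p (prs u w), ?_, ?_, ?_⟩
      · intro q
        by_cases hq : q = p
        · subst hq
          rw [Function.update_self]
          exact prs_card u w
        · rw [Function.update_of_ne hq]
          exact ht q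
      · refine h3.sub ?_
        intro x hx
        rw [mem_biUnion] at hx
        obtain ⟨q, _, hq⟩ := hx
        by_cases hqp : q = p
        · subst hqp
          rw [Function.update_self] at hq
          exact mem_union_right _ hq
        · rw [Function.update_of_ne hqp] at hq
          exact mem_union_left _ (mem_biUnion.2 ⟨q, mem_erase.2 ⟨hqp, mem_univ q⟩, hq⟩)
      · intro q d d' hd
        by_cases hqp : q = p
        · subst hqp
          rw [Function.update_self] at hd
          obtain ⟨rfl, rfl⟩ := Prod.mk.inj (Option.some.inj hd)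
          refine ⟨l, u, w, hu, hw, h1, h2, ?_⟩
          rw [Function.update_self]
        · rw [Function.update_of_ne hqp] at hd
          obtain ⟨l', u', w', hu', hw', e1, e2, e3⟩ := hpos q d d' hd
          refine ⟨l', u', w', hu', hw', e1, e2, ?_⟩
          rw [Function.update_of_ne hqp]
          exact e3

end

end Pool.Agent.Lib.MP_8d8c46_lc.CW
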