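import Pool.Agent.Lib.MP_8d8c46_lc.Mg.G017
import Pool.Agent.Lib.MP_8d8c46_lc.CW.G4
import Pool.Agent.Lib.MP_8d8c46_lc.CW.F6

/-!
# Campaign CW, task P2: symmetric oracle algorithms do not distinguish the two formulas
-/

set_option autoImplicit false

open scoped Classical
open Finset

namespace Pool.Agent.Lib.MP_8d8c46_lc.CW

/-- The images of equivalent structures have the same number of vertices. -/
theorem card_vtx {ι V L : Type} [Fintype V] [Fintype L] {a r m : ℕ} (F : SymMap ι V L a r) {A B : Struct ι V}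
    (ha : 2 * a ≤ m) (hr : 2 * a + r ≤ m) (h : Cov m A B ∅) :
    Fintype.card (F.Vtx A) = Fintype.card (F.Vtx B) := by
  obtain ⟨φ, -⟩ := match_step F hr (s := ∅) (by simpa using ha) h
  exact Fintype.card_congr φ

/-- PROOF. Induction on `T`. Leaf: `Cov.pebbles` to `2 a + r` pebbles, `Cov.eqv`. Query: if `card (F.Vtx A) < x` then by `hO` the oracle gives the same answer on `F A` and `F B`, and the induction hypothesis for the son. -/
theorem alg_same {ι V : Type} [Fintype V] {a r m : ℕ} {A B : Struct ι V} {O : Oracle} {x : ℝ}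
    (hr : 2 * a + r ≤ m) (h : Cov m A B ∅)
    (hO : ∀ (l : ℕ) (F : SymMap ι V (Fin l) a r), (Fintype.card (F.Vtx A) : ℝ) < x →
      (O _ (F.graph A) ↔ O _ (F.graph B))) (T : SymAlg ι V a r) :
    T.AsksLarge O A x ∨ (T.Accepts O A ↔ T.Accepts O B) := by
  induction T with
  | leaf D hD =>
    right
    have h1 : Cov m A B (prs (![] : Fin 0 → V) (![] : Fin 0 → V)) := by
      unfold prs
      simpa using h
    have h2 : Cov (2 * a + r) A B (prs (![] : Fin 0 → V) (![] : Fin 0 → V)) :=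
      h1.pebbles hr (by simp [prs])
    exact hD A B h2.eqv
  | query l F yes no ihy ihn =>
    by_cases hx : x ≤ Fintype.card (F.Vtx A)
    · exact Or.inl (Or.inl hx)
    · have h1 := hO l F (not_le.1 hx)
      by_cases hA : O _ (F.graph A)
      · rcases ihy with hy | hy
        · exact Or.inl (Or.inr (Or.inl ⟨hA, hy⟩))
        · right
          have hB := h1.1 hA
          simp only [SymAlg.Accepts, hA, hB, true_and, not_true_eq_false, false_and, or_false]
          exact hy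
      · rcases ihn with hn | hn
        · exact Or.inl (Or.inr (Or.inr ⟨hA, hn⟩))
        · right
          have hB : ¬ O _ (F.graph B) := fun hb => hA (h1.2 hb)
          simp only [SymAlg.Accepts, hA, hB, false_and, not_false_eq_true, true_and, false_or]
          exact hn

/-- A probability distribution on algorithms each of which either asks a large question or gives the same answer. -/
theorem pmf_same {Ω : Type} (P : PMF Ω) {S S' R : Set Ω} (h : ∀ T, T ∈ R ∨ (T ∈ S ↔ T ∈ S')) :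
    |(P.toOuterMeasure S).toReal - (P.toOuterMeasure S').toReal| ≤ (P.toOuterMeasure R).toReal := by
  have hle1 : ∀ X : Set Ω, P.toOuterMeasure X ≤ 1 := fun X => by
    have h1 := P.toOuterMeasure.mono (Set.subset_univ X)
    have h2 : P.toOuterMeasure Set.univ = 1 := by
      rw [PMF.toOuterMeasure_apply_eq_one_iff]
      exact Set.subset_univ _
    exact h1.trans h2.le
  have hfin : ∀ X : Set Ω, P.toOuterMeasure X ≠ ⊤ := fun X => ne_top_of_le_ne_top ENNReal.one_ne_top (hle1 X)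
  have key : ∀ X Y : Set Ω, X ⊆ Y ∪ R → (P.toOuterMeasure X).toReal ≤
      (P.toOuterMeasure Y).toReal + (P.toOuterMeasure R).toReal := by
    intro X Y hXY
    have h1 : P.toOuterMeasure X ≤ P.toOuterMeasure Y + P.toOuterMeasure R :=
      (P.toOuterMeasure.mono hXY).trans (MeasureTheory.measure_union_le Y R)
    rw [← ENNReal.toReal_add (hfin Y) (hfin R)]
    exact ENNReal.toReal_mono (ENNReal.add_ne_top.2 ⟨hfin Y, hfin R⟩) h1
  have h1 := key S S' (fun T hT => by
    rcases h T with h2 | h2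
    · exact Or.inr h2
    · exact Or.inl (h2.1 hT))
  have h2 := key S' S (fun T hT => by
    rcases h T with h2 | h2
    · exact Or.inr h2
    · exact Or.inl (h2.2 hT))
  rw [abs_le]
  constructor <;> linarith

/-- PROOF. `O, K` from `exists_oracle`. `c₀` from `lemma13`, `c = min (c₀ / 16) (c₀ / (4 K))`. `1 ≤ a ≤ c n`. `M = ⌊c₀ n⌋₊ ≥ 1`, `M > c₀ n - 1`; `φ, ψ` from `lemma13` for `M` pebbles. `k = M / a - 1`: `(k + 1) * a ≤ M`; `2 a + r ≤ c₀ n / 8 + c₀ n / 16 ≤ M`. `lemma12`: `PebbleEquiv k (F φ) (F ψ)` for every symmetric map `F`.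
`k > (c₀ n - 1) / a - 2 ≥ c₀ n / a - 3 ≥ c₀ n / (2 a)`. If `N = card (F.Vtx φ) < (c n / a) ^ (1 / (140 η))` then `K N ^ (140 η) ≤ K c n / a ≤ c₀ n / (4 a) ≤ k`, so the oracle gives the same answer on `F φ` and `F ψ`. -/
theorem main_two {η δ : ℚ} (hη0 : 0 < η) (hη : η ≤ 1 / 200) (hδ0 : 0 < δ) (hδ : δ ≤ 1 / 2) :
    ∃ O : Oracle, Solves η δ O ∧
      (∃ K : ℝ, ∀ (V W : Type) [Fintype V] [Fintype W] (G : SimpleGraph V) (H : SimpleGraph W) (k : ℕ),
        0 < k → K * (Fintype.card V : ℝ) ^ (140 * (η : ℝ)) ≤ k → PebbleEquiv k G H → (O V G ↔ O W H)) ∧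
      ∀ ε : ℝ, 0 < ε → ∃ c : ℝ, 0 < c ∧ ∀ n a r : ℕ, 1 ≤ a → (a : ℝ) ≤ c * n → (r : ℝ) ≤ c * n →
        ∃ φ ψ : Formula (Fin n), Satisfiable φ ∧ ValueLt (7 / 8 + ε) ψ ∧
          ∀ P : PMF (SymAlg (Fin 3 → Bool) (Fin n) a r),
            |(P.toOuterMeasure {T | T.Accepts O (toStruct φ)}).toReal -
                (P.toOuterMeasure {T | T.Accepts O (toStruct ψ)}).toReal| ≤
              (P.toOuterMeasure {T | T.AsksLarge O (toStruct φ) ((c * n / a) ^ (1 / (140 * (η : ℝ))))}).toReal := by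
  obtain ⟨O, hO, K, hK1, hK⟩ := exists_oracle hη0 hη hδ0 hδ
  refine ⟨O, hO, ⟨K, hK⟩, ?_⟩
  intro ε hε
  obtain ⟨c₀, hc₀, h13⟩ := lemma13 hε
  have hK0 : 0 < K := by linarith
  refine ⟨min (c₀ / 16) (c₀ / (4 * K)), lt_min (by positivity) (by positivity), ?_⟩
  intro n a r ha han hr
  set c := min (c₀ / 16) (c₀ / (4 * K)) with hc
  have hcpos : 0 < c := lt_min (by positivity) (by positivity)
  have hc1 : c ≤ c₀ / 16 := min_le_left _ _
  have hc2 : c ≤ c₀ / (4 * K) := min_le_right _ _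
  have haR : (1 : ℝ) ≤ (a : ℝ) := by exact_mod_cast ha
  have ha0 : (0 : ℝ) < a := by linarith
  have hn0 : (0 : ℝ) ≤ n := Nat.cast_nonneg n
  have hηR : (0 : ℝ) < 140 * (η : ℝ) := by
    have : (0 : ℝ) < (η : ℝ) := by exact_mod_cast hη0
    linarith
  have hx0 : 0 ≤ c * n / a := by positivity
  have h16 : 16 * (a : ℝ) ≤ c₀ * n := by
    have : c * n ≤ c₀ / 16 * n := mul_le_mul_of_nonneg_right hc1 hn0
    linarith
  set M := ⌊c₀ * n⌋₊ with hM
  have hM1 : (M : ℝ) ≤ c₀ * n := Nat.floor_le (by positivity)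
  have hM2 : c₀ * n < M + 1 := Nat.lt_floor_add_one _
  have hMpos : 1 ≤ M := by
    have : (1 : ℝ) ≤ (M : ℝ) := by linarith
    exact_mod_cast this
  obtain ⟨φ, ψ, hφ, hψ, hcov⟩ := h13 n M hMpos hM1
  have haM : a ≤ M := by
    have : (a : ℝ) ≤ (M : ℝ) := by linarith
    exact_mod_cast this
  have hdiv : 1 ≤ M / a := (Nat.one_le_div_iff (by omega)).2 haM
  have hk1 : (M / a - 1 + 1) * a ≤ M := by
    rw [Nat.sub_add_cancel hdiv]
    exact Nat.div_mul_le_self M a
  have hr2 : 2 * a + r ≤ M := by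
    have h1 : c * n ≤ c₀ / 16 * n := mul_le_mul_of_nonneg_right hc1 hn0
    have : ((2 * a + r : ℕ) : ℝ) ≤ (M : ℝ) := by
      push_cast
      linarith
    exact_mod_cast this
  have hkR : (M : ℝ) / a < ((M / a - 1 : ℕ) : ℝ) + 2 := by
    have h1 : M < (M / a + 1) * a := by
      have := Nat.lt_div_mul_add (a := M) (b := a) (by omega)
      linarith [this, Nat.add_mul (M / a) 1 a]
    have h2 : (M : ℝ) < ((M / a : ℕ) + 1 : ℝ) * a := by exact_mod_cast h1
    rw [div_lt_iff₀ ha0, Nat.cast_sub hdiv]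
    push_cast
    linarith
  have h1 : c₀ * n / a - 1 ≤ (M : ℝ) / a := by
    have h3 : (c₀ * n - 1) / a ≤ (M : ℝ) / a :=
      div_le_div_of_nonneg_right (by linarith) ha0.le
    have h4 : (1 : ℝ) / a ≤ 1 := (div_le_one ha0).2 haR
    rw [sub_div] at h3
    linarith
  have h2 : 16 ≤ c₀ * n / a := by
    rw [le_div_iff₀ ha0]
    linarith
  have h3 : c₀ * n / a / 2 < ((M / a - 1 : ℕ) : ℝ) := by linarith
  have hk0 : 0 < M / a - 1 := by
    have : (0 : ℝ) < ((M / a - 1 : ℕ) : ℝ) := by linarith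
    exact_mod_cast this
  have hKc : K * (c * n / a) ≤ c₀ * n / a / 2 := by
    have h5 : c * n / a ≤ c₀ / (4 * K) * n / a :=
      div_le_div_of_nonneg_right (mul_le_mul_of_nonneg_right hc2 hn0) ha0.le
    have h6 : K * (c₀ / (4 * K) * n / a) = c₀ * n / a / 4 := by
      field_simp
    have h7 : K * (c * n / a) ≤ K * (c₀ / (4 * K) * n / a) := mul_le_mul_of_nonneg_left h5 hK0.le
    linarith
  refine ⟨φ, ψ, hφ, hψ, fun P => pmf_same P fun T => ?_⟩
  refine alg_same hr2 hcov (fun l F hlt => ?_) T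
  refine hK _ _ _ _ (M / a - 1) hk0 ?_ (lemma12 F hr2 hk1 hcov)
  have hN0 : (0 : ℝ) ≤ (Fintype.card (F.Vtx (toStruct φ)) : ℝ) := Nat.cast_nonneg _
  have h8 : (Fintype.card (F.Vtx (toStruct φ)) : ℝ) ^ (140 * (η : ℝ)) ≤ c * n / a := by
    calc (Fintype.card (F.Vtx (toStruct φ)) : ℝ) ^ (140 * (η : ℝ))
        ≤ ((c * n / a) ^ (1 / (140 * (η : ℝ)))) ^ (140 * (η : ℝ)) :=
          Real.rpow_le_rpow hN0 hlt.le hηR.le
      _ = c * n / a := by
          rw [← Real.rpow_mul hx0, one_div_mul_cancel hηR.ne', Real.rpow_one]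
  have h9 := mul_le_mul_of_nonneg_left h8 hK0.le
  linarith

end Pool.Agent.Lib.MP_8d8c46_lc.CW
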